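import Mathlib

/-!
# General-position partitions of point sets covered by few lines

`N(k)` is bounded by a polynomial: `2 (k - 1) (k - 2) + 1 < N(k) ≤ 90 k ^ 4` (the lower bound for
`k ≥ 4`).
-/

set_option autoImplicit false

open Classical

namespace Pool.Agent.Results.MP_4c1c99_co.PolynomialBound

/-! ## Definitions -/

/-- the Euclidean plane -/
abbrev Plane := EuclideanSpace ℝ (Fin 2)

/-- a line of the plane: the line through two different points -/
def IsLine (l : Set Plane) : Prop :=
  ∃ a b : Plane, a ≠ b ∧ l = {x | x ∈ line[ℝ, a, b]}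

/-- general position: no three points of `T` are collinear -/
def GeneralPosition (T : Set Plane) : Prop :=
  ∀ a ∈ T, ∀ b ∈ T, ∀ c ∈ T, a ≠ b → a ≠ c → b ≠ c → ¬ Collinear ℝ {a, b, c}

/-- `ONLINE(S)`: the largest number of points of `S` on one line -/
noncomputable def online (S : Finset Plane) : ℕ :=
  sSup {n | ∃ l, IsLine l ∧ n = (S.filter (fun x => x ∈ l)).card}

/-- `LC(S)`: the least number of lines whose union contains `S` -/
noncomputable def lineCover (S : Finset Plane) : ℕ :=
  sInf {n | ∃ F : Finset (Set Plane), F.card = n ∧ (∀ l ∈ F, IsLine l) ∧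
    ∀ x ∈ S, ∃ l ∈ F, x ∈ l}

/-- `GP(S)`: the least number of parts (colours) in a partition (colouring) of `S` into subsets in
general position -/
noncomputable def gp (S : Finset Plane) : ℕ :=
  sInf {n | ∃ c : Plane → ℕ, (∀ x ∈ S, c x < n) ∧ ∀ j, GeneralPosition {x | x ∈ S ∧ c x = j}}

/-- `N(k)`: the least `n` such that `GP(S) = ⌈ONLINE(S) / 2⌉` for every `S` with `LC(S) ≤ k` and
`|S| ≥ n` -/
noncomputable def N (k : ℕ) : ℕ :=
  sInf {n | ∀ S : Finset Plane, lineCover S ≤ k → n ≤ S.card → gp S = (online S + 1) / 2}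

/-! ## The combinatorial part: an abstract linear space -/

section lines

variable {α : Type*} {k : ℕ}

/-- the points of `C` on `l` -/
noncomputable def on (C : Finset α) (l : Set α) : Finset α := C.filter (fun x => x ∈ l)

theorem mem_on {C : Finset α} {l : Set α} {x : α} : x ∈ on C l ↔ x ∈ C ∧ x ∈ l := by
  unfold on; rw [Finset.mem_filter]

theorem on_mono {C D : Finset α} (h : C ⊆ D) (l : Set α) : on C l ⊆ on D l := by
  intro x hx
  rw [mem_on] at hx ⊢
  exact ⟨h hx.1, hx.2⟩

/-- every line contains at most two points of `C` -/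
def GPos (𝓛 : Set (Set α)) (C : Finset α) : Prop := ∀ l ∈ 𝓛, (on C l).card ≤ 2

/-- `p` is on a line which is not one of the lines `L i` and which contains two points of `C` -/
def Blocked (𝓛 : Set (Set α)) (L : Fin k → Set α) (C : Finset α) (p : α) : Prop :=
  ∃ l ∈ 𝓛, (∀ i, l ≠ L i) ∧ p ∈ l ∧ 2 ≤ (on C l).card

/-- the setting: `L i` are distinct lines covering `S` -/
structure Setting (𝓛 : Set (Set α)) (L : Fin k → Set α) (S : Finset α) : Prop where
  uniq : ∀ l ∈ 𝓛, ∀ l' ∈ 𝓛, ∀ a b : α, a ≠ b → a ∈ l → b ∈ l → a ∈ l' → b ∈ l' → l = l'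
  mem : ∀ i, L i ∈ 𝓛
  inj : Function.Injective L
  cover : ∀ x ∈ S, ∃ i, x ∈ L i

variable {𝓛 : Set (Set α)} {L : Fin k → Set α} {S : Finset α}

theorem gpos_mono {C D : Finset α} (h : C ⊆ D) (hD : GPos 𝓛 D) : GPos 𝓛 C :=
  fun l hl => (Finset.card_le_card (on_mono h l)).trans (hD l hl)

theorem gpos_insert {C : Finset α} {p : α} (hC : GPos 𝓛 C) (hb : ¬ Blocked 𝓛 L C p)
    (hi : ∀ i, p ∈ L i → (on C (L i)).card ≤ 1) : GPos 𝓛 (insert p C) := by
  intro l hl
  by_cases hp : p ∈ l
  · have h1 : (on C l).card ≤ 1 := by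
      by_cases hli : ∃ i, l = L i
      · obtain ⟨i, rfl⟩ := hli
        exact hi i hp
      · push Not at hli
        by_contra hcon
        exact hb ⟨l, hl, hli, hp, by omega⟩
    have h2 : on (insert p C) l ⊆ insert p (on C l) := by
      intro x hx
      rw [mem_on, Finset.mem_insert] at hx
      rw [Finset.mem_insert, mem_on]
      rcases hx with ⟨rfl | h, h'⟩
      · left; rfl
      · right; exact ⟨h, h'⟩
    have h3 := Finset.card_le_card h2
    have h4 := Finset.card_insert_le p (on C l)
    omega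
  · have h2 : on (insert p C) l ⊆ on C l := by
      intro x hx
      rw [mem_on, Finset.mem_insert] at hx
      rw [mem_on]
      rcases hx with ⟨rfl | h, h'⟩
      · exact absurd h' hp
      · exact ⟨h, h'⟩
    exact (Finset.card_le_card h2).trans (hC l hl)

theorem card_le (H : Setting 𝓛 L S) {C : Finset α} (hC : GPos 𝓛 C) (hCS : C ⊆ S) :
    C.card ≤ 2 * k := by
  have h1 : C ⊆ Finset.univ.biUnion (fun i => on C (L i)) := by
    intro x hx
    obtain ⟨i, hi⟩ := H.cover x (hCS hx)
    rw [Finset.mem_biUnion]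
    exact ⟨i, Finset.mem_univ _, mem_on.mpr ⟨hx, hi⟩⟩
  calc C.card ≤ (Finset.univ.biUnion (fun i => on C (L i))).card := Finset.card_le_card h1
    _ ≤ ∑ i : Fin k, (on C (L i)).card := Finset.card_biUnion_le
    _ ≤ ∑ _i : Fin k, 2 := Finset.sum_le_sum (fun i _ => hC _ (H.mem i))
    _ = 2 * k := by rw [Finset.sum_const, Finset.card_univ, Fintype.card_fin, smul_eq_mul]; ring

theorem blocked_card (H : Setting 𝓛 L S) (C : Finset α) (i : Fin k) (B : Finset α)
    (hB : ∀ p ∈ B, p ∈ L i ∧ Blocked 𝓛 L C p) : B.card ≤ C.card ^ 2 := by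
  have h1 : ∀ p ∈ B, ∃ ab : α × α, ab ∈ C ×ˢ C ∧ ab.1 ≠ ab.2 ∧
      ∃ l ∈ 𝓛, l ≠ L i ∧ p ∈ l ∧ ab.1 ∈ l ∧ ab.2 ∈ l := by
    intro p hp
    obtain ⟨-, l, hl, hli, hpl, h2⟩ := hB p hp
    obtain ⟨a, ha, b, hb, hab⟩ := Finset.one_lt_card.mp (by omega : 1 < (on C l).card)
    rw [mem_on] at ha hb
    exact ⟨(a, b), Finset.mem_product.mpr ⟨ha.1, hb.1⟩, hab, l, hl, hli i, hpl, ha.2, hb.2⟩
  choose! f hf using h1
  have h2 : B.card ≤ (C ×ˢ C).card := by
    apply Finset.card_le_card_of_injOn f (fun p hp => (hf p hp).1)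
    intro p hp p' hp' heq
    obtain ⟨-, hne, l, hl, hli, hpl, h1, h2⟩ := hf p hp
    obtain ⟨-, -, l', hl', -, hpl', h1', h2'⟩ := hf p' hp'
    rw [← heq] at h1' h2'
    have := H.uniq l hl l' hl' _ _ hne h1 h2 h1' h2'
    subst this
    by_contra hpp
    exact hli (H.uniq l hl (L i) (H.mem i) p p' hpp hpl hpl' (hB p hp).1 (hB p' hp').1)
  rw [Finset.card_product] at h2
  rw [sq]
  exact h2

theorem cross_card (H : Setting 𝓛 L S) (i : Fin k) (B : Finset α)
    (hB : ∀ p ∈ B, p ∈ L i ∧ ∃ j, j ≠ i ∧ p ∈ L j) : B.card ≤ k := by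
  have h1 : ∀ p ∈ B, ∃ j : Fin k, j ≠ i ∧ p ∈ L j := fun p hp => (hB p hp).2
  rcases B.eq_empty_or_nonempty with rfl | ⟨p0, hp0⟩
  · simp
  have : Nonempty (Fin k) := ⟨i⟩
  choose! f hf using h1
  have h2 : B.card ≤ (Finset.univ : Finset (Fin k)).card := by
    apply Finset.card_le_card_of_injOn f (fun p _ => Finset.mem_univ _)
    intro p hp p' hp' heq
    by_contra hpp
    have h3 := hf p hp
    have h4 := hf p' hp'
    rw [← heq] at h4
    exact h3.1 (H.inj (H.uniq _ (H.mem _) _ (H.mem _) p p' hpp h3.2 h4.2 (hB p hp).1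
      (hB p' hp').1))
  rwa [Finset.card_univ, Fintype.card_fin] at h2

/-- one more point on the line `L i` -/
theorem add_one (H : Setting 𝓛 L S) {S' C : Finset α} (hS' : S' ⊆ S) (hCS : C ⊆ S')
    (hC : GPos 𝓛 C) (i : Fin k) (hi : (on C (L i)).card ≤ 1)
    (hT : 8 * k ^ 2 ≤ (on S' (L i)).card) :
    ∃ q ∈ S', q ∈ L i ∧ q ∉ C ∧ (∀ j, j ≠ i → q ∉ L j) ∧ GPos 𝓛 (insert q C) := by
  by_contra hcon
  push Not at hcon
  have hk : 1 ≤ k := i.pos
  have h1 : on S' (L i) ⊆ C ∪ ((on S' (L i)).filter (fun p => ∃ j, j ≠ i ∧ p ∈ L j)) ∪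
      ((on S' (L i)).filter (fun p => Blocked 𝓛 L C p)) := by
    intro p hp
    have hp' := mem_on.mp hp
    by_cases h2 : p ∈ C
    · exact Finset.mem_union_left _ (Finset.mem_union_left _ h2)
    by_cases h3 : ∃ j, j ≠ i ∧ p ∈ L j
    · exact Finset.mem_union_left _ (Finset.mem_union_right _ (Finset.mem_filter.mpr ⟨hp, h3⟩))
    by_cases h4 : Blocked 𝓛 L C p
    · exact Finset.mem_union_right _ (Finset.mem_filter.mpr ⟨hp, h4⟩)
    exfalso
    push Not at h3
    apply hcon p hp'.1 hp'.2 h2 h3
    apply gpos_insert hC h4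
    intro j hj
    by_cases hji : j = i
    · rw [hji]; exact hi
    · exact absurd hj (h3 j hji)
  have h2 := Finset.card_le_card h1
  have h3 := Finset.card_union_le (C ∪ ((on S' (L i)).filter (fun p => ∃ j, j ≠ i ∧ p ∈ L j)))
    ((on S' (L i)).filter (fun p => Blocked 𝓛 L C p))
  have h4 := Finset.card_union_le C ((on S' (L i)).filter (fun p => ∃ j, j ≠ i ∧ p ∈ L j))
  have h5 : C.card ≤ 2 * k := card_le H hC (hCS.trans hS')
  have h6 : ((on S' (L i)).filter (fun p => ∃ j, j ≠ i ∧ p ∈ L j)).card ≤ k := by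
    apply cross_card H i
    intro p hp
    rw [Finset.mem_filter, mem_on] at hp
    exact ⟨hp.1.2, hp.2⟩
  have h7 : ((on S' (L i)).filter (fun p => Blocked 𝓛 L C p)).card ≤ C.card ^ 2 := by
    apply blocked_card H C i
    intro p hp
    rw [Finset.mem_filter, mem_on] at hp
    exact ⟨hp.1.2, hp.2⟩
  have h8 : C.card ^ 2 ≤ (2 * k) ^ 2 := Nat.pow_le_pow_left h5 2
  nlinarith

theorem on_insert_of_notMem {C : Finset α} {q : α} {l : Set α} (h : q ∉ l) :
    on (insert q C) l = on C l := by
  ext x
  rw [mem_on, mem_on, Finset.mem_insert]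
  constructor
  · rintro ⟨rfl | h1, h2⟩
    · exact absurd h2 h
    · exact ⟨h1, h2⟩
  · rintro ⟨h1, h2⟩
    exact ⟨Or.inr h1, h2⟩

theorem card_on_insert {C : Finset α} {q : α} {l : Set α} (h : q ∈ l) (hq : q ∉ C) :
    (on (insert q C) l).card = (on C l).card + 1 := by
  have : on (insert q C) l = insert q (on C l) := by
    ext x
    rw [mem_on, Finset.mem_insert, Finset.mem_insert, mem_on]
    constructor
    · rintro ⟨rfl | h1, h2⟩
      · exact Or.inl rfl
      · exact Or.inr ⟨h1, h2⟩
    · rintro (rfl | ⟨h1, h2⟩)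
      · exact ⟨Or.inl rfl, h⟩
      · exact ⟨Or.inr h1, h2⟩
  rw [this, Finset.card_insert_of_notMem]
  rw [mem_on]
  tauto

/-- the greedy choice of one class -/
theorem greedy (H : Setting 𝓛 L S) {S' x : Finset α} (hS' : S' ⊆ S) (hx : x.card ≤ 1)
    (hxS : x ⊆ S') : ∃ C : Finset α, x ⊆ C ∧ C ⊆ S' ∧ GPos 𝓛 C ∧
      ∀ i, 8 * k ^ 2 ≤ (on S' (L i)).card → (on C (L i)).card = 2 := by
  have key : ∀ I : Finset (Fin k), ∃ C : Finset α, x ⊆ C ∧ C ⊆ S' ∧ GPos 𝓛 C ∧
      (∀ i ∈ I, 8 * k ^ 2 ≤ (on S' (L i)).card → (on C (L i)).card = 2) ∧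
      ∀ i, i ∉ I → on C (L i) ⊆ x := by
    intro I
    induction I using Finset.induction_on with
    | empty =>
      refine ⟨x, Finset.Subset.refl _, hxS, ?_, by simp, ?_⟩
      · intro l _
        exact (Finset.card_le_card (Finset.filter_subset _ _)).trans (hx.trans (by norm_num))
      · intro i _
        exact Finset.filter_subset _ _
    | insert i I hiI ih =>
      obtain ⟨C, h1, h2, h3, h4, h5⟩ := ih
      by_cases hT : 8 * k ^ 2 ≤ (on S' (L i)).card
      · have hone : (on C (L i)).card ≤ 1 := (Finset.card_le_card (h5 i hiI)).trans hx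
        obtain ⟨q, hq1, hq2, hq3, hq4, hq5⟩ := add_one H hS' h2 h3 i hone hT
        have c1 := card_on_insert (l := L i) hq2 hq3
        rcases Nat.lt_or_ge (on C (L i)).card 1 with hz | hz
        · -- a second point is necessary
          have hone' : (on (insert q C) (L i)).card ≤ 1 := by omega
          have h2' : insert q C ⊆ S' := Finset.insert_subset hq1 h2
          obtain ⟨r, hr1, hr2, hr3, hr4, hr5⟩ := add_one H hS' h2' hq5 i hone' hT
          have c2 := card_on_insert (l := L i) hr2 hr3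
          refine ⟨insert r (insert q C), ?_, Finset.insert_subset hr1 h2', hr5, ?_, ?_⟩
          · exact h1.trans ((Finset.subset_insert _ _).trans (Finset.subset_insert _ _))
          · intro j hj hTj
            rcases Finset.mem_insert.mp hj with rfl | hj'
            · omega
            · have hji : j ≠ i := by rintro rfl; exact hiI hj'
              rw [on_insert_of_notMem (hr4 j hji), on_insert_of_notMem (hq4 j hji)]
              exact h4 j hj' hTj
          · intro j hj
            rw [Finset.mem_insert, not_or] at hj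
            rw [on_insert_of_notMem (hr4 j hj.1), on_insert_of_notMem (hq4 j hj.1)]
            exact h5 j hj.2
        · refine ⟨insert q C, h1.trans (Finset.subset_insert _ _), Finset.insert_subset hq1 h2,
            hq5, ?_, ?_⟩
          · intro j hj hTj
            rcases Finset.mem_insert.mp hj with rfl | hj'
            · omega
            · have hji : j ≠ i := by rintro rfl; exact hiI hj'
              rw [on_insert_of_notMem (hq4 j hji)]
              exact h4 j hj' hTj
          · intro j hj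
            rw [Finset.mem_insert, not_or] at hj
            rw [on_insert_of_notMem (hq4 j hj.1)]
            exact h5 j hj.2
      · refine ⟨C, h1, h2, h3, ?_, ?_⟩
        · intro j hj hTj
          rcases Finset.mem_insert.mp hj with rfl | hj'
          · exact absurd hTj hT
          · exact h4 j hj' hTj
        · intro j hj
          rw [Finset.mem_insert, not_or] at hj
          exact h5 j hj.2
  obtain ⟨C, h1, h2, h3, h4, -⟩ := key Finset.univ
  exact ⟨C, h1, h2, h3, fun i => h4 i (Finset.mem_univ _)⟩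

/-- `n` disjoint classes, which contain all the points of `Q` -/
theorem classes (H : Setting 𝓛 L S) (n : ℕ) : ∀ (S' Q : Finset α) (G : ℕ), S' ⊆ S → Q ⊆ S' →
    Q.card ≤ n → (∀ i, (on S' (L i)).card ≤ 2 * (G + n)) → 8 * k ^ 2 ≤ 2 * G →
    ∃ (A : Fin n → Finset α) (R : Finset α), (∀ j, GPos 𝓛 (A j)) ∧ (∀ j, A j ⊆ S') ∧
      (∀ j j', j ≠ j' → Disjoint (A j) (A j')) ∧ R ⊆ S' ∧ (∀ x ∈ S', x ∈ R ∨ ∃ j, x ∈ A j) ∧
      (∀ x ∈ R, x ∉ Q) ∧ ∀ i, (on R (L i)).card ≤ 2 * G := by
  induction n with
  | zero =>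
    intro S' Q G hS' hQ hQn hcard hG
    refine ⟨fun j => j.elim0, S', fun j => j.elim0, fun j => j.elim0, fun j => j.elim0,
      Finset.Subset.refl _, fun x hx => Or.inl hx, ?_, by simpa using hcard⟩
    have : Q = ∅ := Finset.card_eq_zero.mp (by omega)
    rw [this]
    simp
  | succ n ih =>
    intro S' Q G hS' hQ hQn hcard hG
    -- the prescribed point
    obtain ⟨x, hx1, hxQ, hxe⟩ : ∃ x : Finset α, x.card ≤ 1 ∧ x ⊆ Q ∧ (Q \ x).card ≤ n := by
      rcases Q.eq_empty_or_nonempty with rfl | ⟨q, hq⟩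
      · exact ⟨∅, by simp, by simp, by simp⟩
      · refine ⟨{q}, by simp, by simpa using hq, ?_⟩
        rw [Finset.card_sdiff_of_subset (by simpa using hq), Finset.card_singleton]
        omega
    obtain ⟨C, hxC, hCS, hC, hC2⟩ := greedy H hS' hx1 (hxQ.trans hQ)
    have hcard' : ∀ i, (on (S' \ C) (L i)).card ≤ 2 * (G + n) := by
      intro i
      have hsub : on C (L i) ⊆ on S' (L i) := on_mono hCS _
      have heq : on (S' \ C) (L i) = on S' (L i) \ on C (L i) := by
        ext y
        simp only [mem_on, Finset.mem_sdiff]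
        tauto
      rw [heq, Finset.card_sdiff_of_subset hsub]
      have h1 := hcard i
      by_cases hT : 8 * k ^ 2 ≤ (on S' (L i)).card
      · have := hC2 i hT
        omega
      · omega
    have hQ' : Q \ C ⊆ S' \ C := Finset.sdiff_subset_sdiff hQ (Finset.Subset.refl _)
    have hQn' : (Q \ C).card ≤ n :=
      (Finset.card_le_card (Finset.sdiff_subset_sdiff (Finset.Subset.refl _) hxC)).trans hxe
    obtain ⟨A, R, a1, a2, a3, a4, a5, a6, a7⟩ := ih (S' \ C) (Q \ C) G
      (Finset.sdiff_subset.trans hS') hQ' hQn' hcard' hG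
    refine ⟨Fin.cons C A, R, ?_, ?_, ?_, a4.trans Finset.sdiff_subset, ?_, ?_, a7⟩
    · intro j
      refine Fin.cases ?_ (fun j => ?_) j
      · exact hC
      · exact a1 j
    · intro j
      refine Fin.cases ?_ (fun j => ?_) j
      · exact hCS
      · exact (a2 j).trans Finset.sdiff_subset
    · intro j j'
      refine Fin.cases ?_ (fun j => ?_) j <;> refine Fin.cases ?_ (fun j' => ?_) j'
      · intro h; exact absurd rfl h
      · intro _
        simp only [Fin.cons_zero, Fin.cons_succ]
        exact (Finset.disjoint_sdiff.mono_right (a2 j'))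
      · intro _
        simp only [Fin.cons_zero, Fin.cons_succ]
        exact (Finset.disjoint_sdiff.mono_right (a2 j)).symm
      · intro h
        simp only [Fin.cons_succ]
        exact a3 j j' (fun h' => h (by rw [h']))
    · intro y hy
      by_cases hyC : y ∈ C
      · exact Or.inr ⟨0, by simpa using hyC⟩
      · rcases a5 y (Finset.mem_sdiff.mpr ⟨hy, hyC⟩) with h | ⟨j, hj⟩
        · exact Or.inl h
        · exact Or.inr ⟨j.succ, by simpa using hj⟩
    · intro y hy hyQ
      have h1 := Finset.mem_sdiff.mp (a4 hy)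
      exact a6 y hy (Finset.mem_sdiff.mpr ⟨hyQ, h1.2⟩)

theorem blocked_mono {C D : Finset α} (h : C ⊆ D) {p : α} (hb : Blocked 𝓛 L C p) :
    Blocked 𝓛 L D p := by
  obtain ⟨l, hl, hli, hp, h2⟩ := hb
  exact ⟨l, hl, hli, hp, h2.trans (Finset.card_le_card (on_mono h l))⟩

theorem card_le_sum_on (H : Setting 𝓛 L S) {C : Finset α} (hCS : C ⊆ S) :
    C.card ≤ ∑ i : Fin k, (on C (L i)).card := by
  have h1 : C ⊆ Finset.univ.biUnion (fun i => on C (L i)) := by
    intro x hx
    obtain ⟨i, hi⟩ := H.cover x (hCS hx)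
    rw [Finset.mem_biUnion]
    exact ⟨i, Finset.mem_univ _, mem_on.mpr ⟨hx, hi⟩⟩
  exact (Finset.card_le_card h1).trans Finset.card_biUnion_le

/-- the remaining points `R` are placed by exchanges with the classes `A c` -/
theorem swap (H : Setting 𝓛 L S) {g r : ℕ} (A : Fin g → Finset α) (hA : ∀ c, GPos 𝓛 (A c))
    (hAS : ∀ c, A c ⊆ S) (hdisj : ∀ c c', c ≠ c' → Disjoint (A c) (A c'))
    (hAX : ∀ c, ∀ x ∈ A c, ∀ i j, x ∈ L i → x ∈ L j → i = j)
    (R : Finset α) (hRS : R ⊆ S) (hRX : ∀ x ∈ R, ∀ i j, x ∈ L i → x ∈ L j → i = j)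
    (hRr : ∀ i, (on R (L i)).card ≤ 2 * r)
    (hRb : ∀ p ∈ R, 2 * (Finset.univ.filter (fun c => Blocked 𝓛 L (A c) p)).card ≤ g)
    (hg : 2 * (2 * k * r + 4 * k ^ 2 + 2 * k) < g) (Q : Finset α) :
    Q ⊆ R → ∃ (A' : Fin g → Finset α) (D : Fin r → Finset α) (U : Finset (Fin g)),
      U.card ≤ Q.card ∧ (∀ c, c ∉ U → A' c = A c) ∧ (∀ c, GPos 𝓛 (A' c)) ∧
      (∀ a, GPos 𝓛 (D a)) ∧ (∀ a, D a ⊆ S) ∧
      (∀ x, ((∃ c, x ∈ A c) ∨ x ∈ Q) → ((∃ c, x ∈ A' c) ∨ ∃ a, x ∈ D a)) ∧
      ∀ i, ∑ a, (on (D a) (L i)).card ≤ (on Q (L i)).card := by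
  induction Q using Finset.induction_on with
  | empty =>
    intro _
    refine ⟨A, fun _ => ∅, ∅, by simp, fun _ _ => rfl, hA, ?_, by simp, ?_, ?_⟩
    · intro a l _
      unfold on
      simp
    · intro x hx
      rcases hx with h | h
      · exact Or.inl h
      · simp at h
    · intro i
      unfold on
      simp
  | insert p Q hpQ ih =>
    intro hQR
    have hpR : p ∈ R := hQR (Finset.mem_insert_self _ _)
    have hQR' : Q ⊆ R := (Finset.subset_insert _ _).trans hQR
    obtain ⟨A', D, U, hU, hA'U, hA', hD, hDS, hcov, hsum⟩ := ih hQR'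
    obtain ⟨i, hi⟩ := H.cover p (hRS hpR)
    have hpi : ∀ j, p ∈ L j → j = i := fun j hj => hRX p hpR j i hj hi
    -- a class `D a` with at most one point on `L i`
    obtain ⟨a, ha⟩ : ∃ a, (on (D a) (L i)).card ≤ 1 := by
      by_contra hcon
      push Not at hcon
      have h1 : ∑ _a : Fin r, 2 ≤ ∑ a, (on (D a) (L i)).card :=
        Finset.sum_le_sum (fun a _ => hcon a)
      rw [Finset.sum_const, Finset.card_univ, Fintype.card_fin, smul_eq_mul] at h1
      have h2 := hsum i
      have h3 := card_on_insert (l := L i) hi hpQ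
      have h4 := Finset.card_le_card (on_mono hQR (L i))
      have h5 := hRr i
      omega
    -- a class `A c`
    obtain ⟨c, hcU, hcb, hc2⟩ : ∃ c, c ∉ U ∧ ¬ Blocked 𝓛 L (A c) p ∧
        (2 ≤ (on (A c) (L i)).card → ∃ q ∈ on (A c) (L i), q ∉ D a ∧ ¬ Blocked 𝓛 L (D a) q) := by
      by_contra hcon
      push Not at hcon
      set E : Finset α := (D a) ∪ ((on S (L i)).filter (fun q => Blocked 𝓛 L (D a) q)) with hE
      have hEc : E.card ≤ 2 * k + 4 * k ^ 2 := by
        have h1 := Finset.card_union_le (D a) ((on S (L i)).filter (fun q => Blocked 𝓛 L (D a) q))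
        have h2 := card_le H (hD a) (hDS a)
        have h3 : ((on S (L i)).filter (fun q => Blocked 𝓛 L (D a) q)).card ≤ (D a).card ^ 2 := by
          apply blocked_card H (D a) i
          intro q hq
          rw [Finset.mem_filter, mem_on] at hq
          exact ⟨hq.1.2, hq.2⟩
        have h4 : (D a).card ^ 2 ≤ (2 * k) ^ 2 := Nat.pow_le_pow_left h2 2
        nlinarith
      set B3 : Finset (Fin g) := Finset.univ.filter (fun c => 2 ≤ (on (A c) (L i)).card ∧
        ∀ q ∈ on (A c) (L i), q ∈ E) with hB3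
      have hB3c : B3.card ≤ E.card := by
        have h1 : ∀ c ∈ B3, ∃ q, q ∈ on (A c) (L i) := by
          intro c hc
          rw [hB3, Finset.mem_filter] at hc
          exact Finset.card_pos.mp (by omega)
        rcases B3.eq_empty_or_nonempty with he | ⟨c0, hc0⟩
        · rw [he]; simp
        obtain ⟨q0, -⟩ := h1 c0 hc0
        have : Nonempty α := ⟨q0⟩
        choose! f hf using h1
        apply Finset.card_le_card_of_injOn f
        · intro c hc
          have hc' := (Finset.mem_filter.mp hc).2.2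
          exact hc' _ (hf c hc)
        · intro c hc c' hc' heq
          by_contra hne
          have h2 := (mem_on.mp (hf c hc)).1
          have h3 := (mem_on.mp (hf c' hc')).1
          rw [← heq] at h3
          exact Finset.disjoint_left.mp (hdisj c c' hne) h2 h3
      have hall : (Finset.univ : Finset (Fin g)) ⊆
          U ∪ (Finset.univ.filter (fun c => Blocked 𝓛 L (A c) p)) ∪ B3 := by
        intro c _
        by_cases h1 : c ∈ U
        · exact Finset.mem_union_left _ (Finset.mem_union_left _ h1)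
        by_cases h2 : Blocked 𝓛 L (A c) p
        · exact Finset.mem_union_left _ (Finset.mem_union_right _
            (Finset.mem_filter.mpr ⟨Finset.mem_univ _, h2⟩))
        apply Finset.mem_union_right
        obtain ⟨h3, h4⟩ := hcon c h1 h2
        rw [hB3, Finset.mem_filter]
        refine ⟨Finset.mem_univ _, h3, ?_⟩
        intro q hq
        by_cases h5 : q ∈ D a
        · exact Finset.mem_union_left _ h5
        · apply Finset.mem_union_right
          rw [Finset.mem_filter, mem_on]
          exact ⟨⟨hAS c (mem_on.mp hq).1, (mem_on.mp hq).2⟩, h4 q hq h5⟩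
      have h1 := Finset.card_le_card hall
      rw [Finset.card_univ, Fintype.card_fin] at h1
      have h2 := Finset.card_union_le (U ∪ (Finset.univ.filter (fun c => Blocked 𝓛 L (A c) p))) B3
      have h3 := Finset.card_union_le U (Finset.univ.filter (fun c => Blocked 𝓛 L (A c) p))
      have h4 := hRb p hpR
      have h5 : R.card ≤ 2 * k * r := by
        calc R.card ≤ ∑ i : Fin k, (on R (L i)).card := card_le_sum_on H hRS
          _ ≤ ∑ _i : Fin k, 2 * r := Finset.sum_le_sum (fun i _ => hRr i)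
          _ = 2 * k * r := by
            rw [Finset.sum_const, Finset.card_univ, Fintype.card_fin, smul_eq_mul]; ring
      have h6 := Finset.card_le_card hQR'
      omega
    have hAc : A' c = A c := hA'U c hcU
    by_cases htwo : 2 ≤ (on (A c) (L i)).card
    · obtain ⟨q, hq, hqD, hqb⟩ := hc2 htwo
      have hqA := (mem_on.mp hq).1
      have hqL := (mem_on.mp hq).2
      have hqi : ∀ j, q ∈ L j → j = i := fun j hj => hAX c q hqA j i hj hqL
      have hG1 : GPos 𝓛 (insert p ((A c).erase q)) := by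
        apply gpos_insert (L := L) (gpos_mono (Finset.erase_subset _ _) (hA c))
        · intro hb
          exact hcb (blocked_mono (Finset.erase_subset _ _) hb)
        · intro j hj
          rw [hpi j hj]
          have h1 : on ((A c).erase q) (L i) ⊆ (on (A c) (L i)).erase q := by
            intro x hx
            rw [mem_on, Finset.mem_erase] at hx
            rw [Finset.mem_erase, mem_on]
            exact ⟨hx.1.1, hx.1.2, hx.2⟩
          have h2 := Finset.card_le_card h1
          rw [Finset.card_erase_of_mem hq] at h2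
          have h3 := hA c (L i) (H.mem i)
          omega
      have hG2 : GPos 𝓛 (insert q (D a)) := by
        apply gpos_insert (L := L) (hD a) hqb
        intro j hj
        rw [hqi j hj]
        exact ha
      refine ⟨Function.update A' c (insert p ((A c).erase q)), Function.update D a (insert q (D a)),
        insert c U, ?_, ?_, ?_, ?_, ?_, ?_, ?_⟩
      · rw [Finset.card_insert_of_notMem hpQ]
        exact (Finset.card_insert_le _ _).trans (by omega)
      · intro c' hc'
        rw [Finset.mem_insert, not_or] at hc'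
        rw [Function.update_of_ne hc'.1]
        exact hA'U c' hc'.2
      · intro c'
        by_cases h : c' = c
        · rw [h, Function.update_self]; exact hG1
        · rw [Function.update_of_ne h]; exact hA' c'
      · intro a'
        by_cases h : a' = a
        · rw [h, Function.update_self]; exact hG2
        · rw [Function.update_of_ne h]; exact hD a'
      · intro a'
        by_cases h : a' = a
        · rw [h, Function.update_self]
          exact Finset.insert_subset (hAS c hqA) (hDS a)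
        · rw [Function.update_of_ne h]; exact hDS a'
      · intro x hx
        by_cases hxp : x = p
        · left
          refine ⟨c, ?_⟩
          rw [Function.update_self, hxp]
          exact Finset.mem_insert_self _ _
        have hx' : (∃ c, x ∈ A c) ∨ x ∈ Q := by
          rcases hx with h | h
          · exact Or.inl h
          · rcases Finset.mem_insert.mp h with h' | h'
            · exact absurd h' hxp
            · exact Or.inr h'
        by_cases hxq : x = q
        · right
          refine ⟨a, ?_⟩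
          rw [Function.update_self, hxq]
          exact Finset.mem_insert_self _ _
        rcases hcov x hx' with ⟨c', hc'⟩ | ⟨a', ha'⟩
        · left
          refine ⟨c', ?_⟩
          by_cases h : c' = c
          · rw [h, Function.update_self, Finset.mem_insert, Finset.mem_erase]
            right
            refine ⟨hxq, ?_⟩
            rw [← hAc, ← h]
            exact hc'
          · rw [Function.update_of_ne h]; exact hc'
        · right
          refine ⟨a', ?_⟩
          by_cases h : a' = a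
          · rw [h, Function.update_self, Finset.mem_insert]
            right
            rw [← h]
            exact ha'
          · rw [Function.update_of_ne h]; exact ha'
      · intro j
        rw [← Finset.add_sum_erase _ _ (Finset.mem_univ a)]
        have h1 : ∑ x ∈ Finset.univ.erase a, (on (Function.update D a (insert q (D a)) x) (L j)).card
            = ∑ x ∈ Finset.univ.erase a, (on (D x) (L j)).card := by
          apply Finset.sum_congr rfl
          intro x hx
          rw [Function.update_of_ne (Finset.ne_of_mem_erase hx)]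
        rw [h1, Function.update_self]
        have h2 := hsum j
        rw [← Finset.add_sum_erase _ _ (Finset.mem_univ a)] at h2
        by_cases hj : j = i
        · subst hj
          rw [card_on_insert hqL hqD, card_on_insert hi hpQ]
          omega
        · rw [on_insert_of_notMem (fun h => hj (hqi j h)),
            on_insert_of_notMem (fun h => hj (hpi j h))]
          exact h2
    · have hG1 : GPos 𝓛 (insert p (A c)) := by
        apply gpos_insert (L := L) (hA c) hcb
        intro j hj
        rw [hpi j hj]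
        omega
      refine ⟨Function.update A' c (insert p (A c)), D, insert c U, ?_, ?_, ?_, hD, hDS, ?_, ?_⟩
      · rw [Finset.card_insert_of_notMem hpQ]
        exact (Finset.card_insert_le _ _).trans (by omega)
      · intro c' hc'
        rw [Finset.mem_insert, not_or] at hc'
        rw [Function.update_of_ne hc'.1]
        exact hA'U c' hc'.2
      · intro c'
        by_cases h : c' = c
        · rw [h, Function.update_self]; exact hG1
        · rw [Function.update_of_ne h]; exact hA' c'
      · intro x hx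
        by_cases hxp : x = p
        · left
          refine ⟨c, ?_⟩
          rw [Function.update_self, hxp]
          exact Finset.mem_insert_self _ _
        have hx' : (∃ c, x ∈ A c) ∨ x ∈ Q := by
          rcases hx with h | h
          · exact Or.inl h
          · rcases Finset.mem_insert.mp h with h' | h'
            · exact absurd h' hxp
            · exact Or.inr h'
        rcases hcov x hx' with ⟨c', hc'⟩ | h
        · left
          refine ⟨c', ?_⟩
          by_cases h : c' = c
          · rw [h, Function.update_self, Finset.mem_insert]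
            right
            rw [← hAc, ← h]
            exact hc'
          · rw [Function.update_of_ne h]; exact hc'
        · exact Or.inr h
      · intro j
        exact (hsum j).trans (Finset.card_le_card (on_mono (Finset.subset_insert _ _) _))

/-- `T` has a colouring with `n` colours such that every colour class is in general position -/
def Cov (𝓛 : Set (Set α)) (n : ℕ) (T : Finset α) : Prop :=
  ∃ c : α → ℕ, (∀ x ∈ T, c x < n) ∧ ∀ j, GPos 𝓛 (T.filter (fun x => c x = j))

theorem cov_of_family {n : ℕ} (A : Fin n → Finset α) (hA : ∀ j, GPos 𝓛 (A j)) (T : Finset α)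
    (hT : ∀ x ∈ T, ∃ j, x ∈ A j) : Cov 𝓛 n T := by
  have h1 : ∀ x ∈ T, ∃ m : ℕ, ∃ h : m < n, x ∈ A ⟨m, h⟩ := by
    intro x hx
    obtain ⟨j, hj⟩ := hT x hx
    exact ⟨j.1, j.2, hj⟩
  choose! f hf using h1
  refine ⟨f, fun x hx => (hf x hx).1, ?_⟩
  intro j
  by_cases hj : j < n
  · apply gpos_mono _ (hA ⟨j, hj⟩)
    intro x hx
    rw [Finset.mem_filter] at hx
    obtain ⟨h, hx'⟩ := hf x hx.1
    have : (⟨f x, h⟩ : Fin n) = ⟨j, hj⟩ := Fin.ext hx.2
    rwa [this] at hx'
  · intro l _
    have : T.filter (fun x => f x = j) = ∅ := by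
      rw [Finset.filter_eq_empty_iff]
      intro x hx hxj
      exact hj (hxj ▸ (hf x hx).1)
    rw [this]
    unfold on
    simp

theorem cov_union {n m : ℕ} {T T' : Finset α} (h : Cov 𝓛 n T) (h' : Cov 𝓛 m T') :
    Cov 𝓛 (n + m) (T ∪ T') := by
  obtain ⟨c, hc, hc'⟩ := h
  obtain ⟨d, hd, hd'⟩ := h'
  refine ⟨fun x => if x ∈ T then c x else n + d x, ?_, ?_⟩
  · intro x hx
    by_cases hxT : x ∈ T
    · simp only [hxT, if_true]
      have := hc x hxT
      omega
    · simp only [hxT, if_false]
      have := hd x ((Finset.mem_union.mp hx).resolve_left hxT)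
      omega
  · intro j
    by_cases hj : j < n
    · apply gpos_mono _ (hc' j)
      intro x hx
      rw [Finset.mem_filter] at hx ⊢
      by_cases hxT : x ∈ T
      · simp only [hxT, if_true] at hx
        exact ⟨hxT, hx.2⟩
      · simp only [hxT, if_false] at hx
        omega
    · apply gpos_mono _ (hd' (j - n))
      intro x hx
      rw [Finset.mem_filter] at hx ⊢
      by_cases hxT : x ∈ T
      · simp only [hxT, if_true] at hx
        have := hc x hxT
        omega
      · simp only [hxT, if_false] at hx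
        exact ⟨(Finset.mem_union.mp hx.1).resolve_left hxT, by omega⟩

theorem cov_mono {n : ℕ} {T T' : Finset α} (hTT : T ⊆ T') (h : Cov 𝓛 n T') : Cov 𝓛 n T := by
  obtain ⟨c, hc, hc'⟩ := h
  refine ⟨c, fun x hx => hc x (hTT hx), fun j => gpos_mono ?_ (hc' j)⟩
  exact Finset.filter_subset_filter _ hTT

/-- the main combinatorial theorem -/
theorem cov_main (H : Setting 𝓛 L S) (hk : 1 ≤ k) (g : ℕ) (hg : 45 * k ^ 3 ≤ g)
    (hS : ∀ i, (on S (L i)).card ≤ 2 * g) : Cov 𝓛 g S := by
  have hk2 : k ^ 2 ≤ k ^ 3 := Nat.pow_le_pow_right hk (by norm_num)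
  have hk1 : k ≤ k ^ 2 := by nlinarith
  have hk0 : 1 ≤ k ^ 3 := Nat.one_le_pow _ _ hk
  -- phase 0: the points on several lines
  set X : Finset α := S.filter (fun x => ∃ i j, i ≠ j ∧ x ∈ L i ∧ x ∈ L j) with hX
  have hXc : X.card ≤ k ^ 2 := by
    calc X.card ≤ ∑ i : Fin k, (on X (L i)).card := card_le_sum_on H (Finset.filter_subset _ _)
      _ ≤ ∑ _i : Fin k, k := by
        apply Finset.sum_le_sum
        intro i _
        apply cross_card H i
        intro p hp
        rw [mem_on, hX, Finset.mem_filter] at hp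
        obtain ⟨⟨-, a, b, hab, hpa, hpb⟩, hpi⟩ := hp
        refine ⟨hpi, ?_⟩
        by_cases hai : a = i
        · exact ⟨b, fun h => hab (hai.trans h.symm), hpb⟩
        · exact ⟨a, hai, hpa⟩
      _ = k ^ 2 := by rw [Finset.sum_const, Finset.card_univ, Fintype.card_fin, smul_eq_mul, sq]
  obtain ⟨A0, R0, a1, a2, a3, a4, a5, a6, a7⟩ := classes H (k ^ 2) S X (g - k ^ 2)
    (Finset.Subset.refl _) (Finset.filter_subset _ _) hXc
    (by intro i; have := hS i; omega) (by omega)
  have hR0X : ∀ x ∈ R0, ∀ i j, x ∈ L i → x ∈ L j → i = j := by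
    intro x hx i j hi hj
    by_contra hij
    exact a6 x hx (Finset.mem_filter.mpr ⟨a4 hx, i, j, hij, hi, hj⟩)
  -- phase A
  obtain ⟨A1, R1, b1, b2, b3, b4, b5, -, b7⟩ := classes H (32 * k ^ 3) R0 ∅
    (g - k ^ 2 - 32 * k ^ 3) a4 (Finset.empty_subset _) (by simp)
    (by intro i; have := a7 i; omega) (by omega)
  -- the hot points
  set Hot : Finset α := R1.filter (fun p =>
    32 * k ^ 3 < 2 * (Finset.univ.filter (fun c => Blocked 𝓛 L (A1 c) p)).card) with hHot
  have hHotc : Hot.card ≤ 8 * k ^ 3 := by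
    have e1 : ∑ p ∈ Hot, (Finset.univ.filter (fun c => Blocked 𝓛 L (A1 c) p)).card ≤
        32 * k ^ 3 * (4 * k ^ 3) := by
      calc ∑ p ∈ Hot, (Finset.univ.filter (fun c => Blocked 𝓛 L (A1 c) p)).card
          = ∑ c : Fin (32 * k ^ 3), (Hot.filter (fun p => Blocked 𝓛 L (A1 c) p)).card := by
            simp only [Finset.card_filter]
            rw [Finset.sum_comm]
        _ ≤ ∑ _c : Fin (32 * k ^ 3), 4 * k ^ 3 := by
            apply Finset.sum_le_sum
            intro c _
            have hsub : Hot.filter (fun p => Blocked 𝓛 L (A1 c) p) ⊆ S :=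
              (Finset.filter_subset _ _).trans ((Finset.filter_subset _ _).trans (b4.trans a4))
            calc (Hot.filter (fun p => Blocked 𝓛 L (A1 c) p)).card
                ≤ ∑ i : Fin k, (on (Hot.filter (fun p => Blocked 𝓛 L (A1 c) p)) (L i)).card :=
                  card_le_sum_on H hsub
              _ ≤ ∑ _i : Fin k, 4 * k ^ 2 := by
                  apply Finset.sum_le_sum
                  intro i _
                  have h1 := blocked_card H (A1 c) i
                    (on (Hot.filter (fun p => Blocked 𝓛 L (A1 c) p)) (L i)) (by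
                      intro p hp
                      rw [mem_on, Finset.mem_filter] at hp
                      exact ⟨hp.2, hp.1.2⟩)
                  have h2 := card_le H (b1 c) ((b2 c).trans a4)
                  have h3 : (A1 c).card ^ 2 ≤ (2 * k) ^ 2 := Nat.pow_le_pow_left h2 2
                  nlinarith
              _ = 4 * k ^ 3 := by
                  rw [Finset.sum_const, Finset.card_univ, Fintype.card_fin, smul_eq_mul]; ring
        _ = 32 * k ^ 3 * (4 * k ^ 3) := by
            rw [Finset.sum_const, Finset.card_univ, Fintype.card_fin, smul_eq_mul]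
    have e2 : Hot.card * (32 * k ^ 3) ≤
        2 * ∑ p ∈ Hot, (Finset.univ.filter (fun c => Blocked 𝓛 L (A1 c) p)).card := by
      rw [Finset.mul_sum, ← smul_eq_mul, ← Finset.sum_const]
      apply Finset.sum_le_sum
      intro p hp
      exact (Finset.mem_filter.mp hp).2.le
    have e3 : Hot.card * (32 * k ^ 3) ≤ 8 * k ^ 3 * (32 * k ^ 3) := by
      calc Hot.card * (32 * k ^ 3) ≤ 2 * (32 * k ^ 3 * (4 * k ^ 3)) := e2.trans (by omega)
        _ = 8 * k ^ 3 * (32 * k ^ 3) := by ring
    exact Nat.le_of_mul_le_mul_right e3 (by omega)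
  -- phase B
  obtain ⟨A2, R2, c1, c2, c3, c4, c5, c6, c7⟩ := classes H (g - k ^ 2 - 32 * k ^ 3 - 4 * k ^ 2)
    R1 Hot (4 * k ^ 2) (b4.trans a4) (Finset.filter_subset _ _) (by omega)
    (by intro i; have := b7 i; omega) (by omega)
  -- the exchanges
  obtain ⟨A', D, U, -, -, d1, d2, -, d3, -⟩ := swap H (r := 4 * k ^ 2) A1 b1
    (fun c => (b2 c).trans a4) b3 (fun c x hx => hR0X x (b2 c hx)) R2 (c4.trans (b4.trans a4))
    (fun x hx => hR0X x (b4 (c4 hx))) c7 (by
      intro p hp
      by_contra hcon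
      push Not at hcon
      exact c6 p hp (Finset.mem_filter.mpr ⟨c4 hp, hcon⟩)) (by
      have e : 2 * (2 * k * (4 * k ^ 2) + 4 * k ^ 2 + 2 * k) = 16 * k ^ 3 + 8 * k ^ 2 + 4 * k := by
        ring
      rw [e]
      omega) R2 (Finset.Subset.refl _)
  -- conclusion
  have f0 : Cov 𝓛 (k ^ 2) (S.filter (fun x => ∃ j, x ∈ A0 j)) :=
    cov_of_family A0 a1 _ (fun x hx => (Finset.mem_filter.mp hx).2)
  have f1 : Cov 𝓛 (32 * k ^ 3) (S.filter (fun x => ∃ j, x ∈ A' j)) :=
    cov_of_family A' d1 _ (fun x hx => (Finset.mem_filter.mp hx).2)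
  have f2 : Cov 𝓛 (g - k ^ 2 - 32 * k ^ 3 - 4 * k ^ 2) (S.filter (fun x => ∃ j, x ∈ A2 j)) :=
    cov_of_family A2 c1 _ (fun x hx => (Finset.mem_filter.mp hx).2)
  have f3 : Cov 𝓛 (4 * k ^ 2) (S.filter (fun x => ∃ j, x ∈ D j)) :=
    cov_of_family D d2 _ (fun x hx => (Finset.mem_filter.mp hx).2)
  have f4 := cov_union f0 (cov_union f1 (cov_union f2 f3))
  have e : k ^ 2 + (32 * k ^ 3 + (g - k ^ 2 - 32 * k ^ 3 - 4 * k ^ 2 + 4 * k ^ 2)) = g := by omega
  rw [e] at f4
  apply cov_mono _ f4
  intro x hx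
  simp only [Finset.mem_union, Finset.mem_filter, hx, true_and]
  rcases a5 x hx with h | h
  · rcases b5 x h with h' | h'
    · rcases c5 x h' with h'' | h''
      · rcases d3 x (Or.inr h'') with h3 | h3
        · exact Or.inr (Or.inl h3)
        · exact Or.inr (Or.inr (Or.inr h3))
      · exact Or.inr (Or.inr (Or.inl h''))
    · rcases d3 x (Or.inl h') with h3 | h3
      · exact Or.inr (Or.inl h3)
      · exact Or.inr (Or.inr (Or.inr h3))
  · exact Or.inl h

end lines

/-! ## The plane -/

section plane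

/-- the set of all lines of the plane -/
def lns : Set (Set Plane) := {l | IsLine l}

theorem line_uniq {l l' : Set Plane} (hl : IsLine l) (hl' : IsLine l') {a b : Plane} (hab : a ≠ b)
    (ha : a ∈ l) (hb : b ∈ l) (ha' : a ∈ l') (hb' : b ∈ l') : l = l' := by
  obtain ⟨p, q, -, rfl⟩ := hl
  obtain ⟨p', q', -, rfl⟩ := hl'
  rw [Set.mem_ofPred_eq] at ha hb ha' hb'
  have h1 := affineSpan_pair_eq_of_mem_of_mem_of_ne ha hb hab
  have h2 := affineSpan_pair_eq_of_mem_of_mem_of_ne ha' hb' hab
  ext x
  rw [Set.mem_ofPred_eq, Set.mem_ofPred_eq, ← h1, ← h2]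

theorem gpos_iff (T : Finset Plane) : GPos lns T ↔ GeneralPosition {x | x ∈ T} := by
  constructor
  · intro h a ha b hb c hc hab hac hbc hcol
    rw [Set.mem_ofPred_eq] at ha hb hc
    have h1 := h {x | x ∈ line[ℝ, a, b]} ⟨a, b, hab, rfl⟩
    have h2 : ({a, b, c} : Finset Plane) ⊆ on T {x | x ∈ line[ℝ, a, b]} := by
      intro x hx
      rw [mem_on, Set.mem_ofPred_eq]
      simp only [Finset.mem_insert, Finset.mem_singleton] at hx
      rcases hx with rfl | rfl | rfl
      · exact ⟨ha, left_mem_affineSpan_pair ℝ _ _⟩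
      · exact ⟨hb, right_mem_affineSpan_pair ℝ _ _⟩
      · exact ⟨hc, hcol.mem_affineSpan_of_mem_of_ne (by simp) (by simp) (by simp) hab⟩
    have h3 := Finset.card_le_card h2
    rw [Finset.card_eq_three.mpr ⟨a, b, c, hab, hac, hbc, rfl⟩] at h3
    omega
  · intro h l hl
    by_contra hcon
    push Not at hcon
    obtain ⟨a, ha, b, hb, c, hc, hab, hac, hbc⟩ := Finset.two_lt_card.mp hcon
    rw [mem_on] at ha hb hc
    apply h a ha.1 b hb.1 c hc.1 hab hac hbc
    obtain ⟨p, q, hpq, rfl⟩ := hl
    have h1 : Collinear ℝ ({p, q} : Set Plane) := collinear_pair ℝ p q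
    have h2 := affineSpan_pair_eq_of_mem_of_mem_of_ne ha.2 hb.2 hab
    have h3 : c ∈ line[ℝ, a, b] := by rw [h2]; exact hc.2
    have h4 := collinear_insert_of_mem_affineSpan_pair h3
    apply h4.subset
    intro x hx
    simp only [Set.mem_insert_iff, Set.mem_singleton_iff] at hx ⊢
    tauto

theorem bdd_online (S : Finset Plane) :
    BddAbove {n | ∃ l, IsLine l ∧ n = (S.filter (fun x => x ∈ l)).card} := by
  refine ⟨S.card, ?_⟩
  rintro n ⟨l, -, rfl⟩
  exact Finset.card_le_card (Finset.filter_subset _ _)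

theorem le_online (S : Finset Plane) {l : Set Plane} (hl : IsLine l) :
    (on S l).card ≤ online S := le_csSup (bdd_online S) ⟨l, hl, rfl⟩

theorem exists_line : ∃ l, IsLine l := by
  refine ⟨_, 0, EuclideanSpace.single 0 1, ?_, rfl⟩
  intro h
  have := congrArg (fun x : Plane => x 0) h
  simp at this

theorem online_attained (S : Finset Plane) : ∃ l, IsLine l ∧ online S = (on S l).card := by
  obtain ⟨l, hl⟩ := exists_line
  have := Nat.sSup_mem (s := {n | ∃ l, IsLine l ∧ n = (S.filter (fun x => x ∈ l)).card})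
    ⟨_, l, hl, rfl⟩ (bdd_online S)
  exact this

theorem cover_nonempty (S : Finset Plane) : {n | ∃ F : Finset (Set Plane), F.card = n ∧
    (∀ l ∈ F, IsLine l) ∧ ∀ x ∈ S, ∃ l ∈ F, x ∈ l}.Nonempty := by
  have h1 : ∀ x : Plane, ∃ l, IsLine l ∧ x ∈ l := by
    intro x
    refine ⟨_, ⟨x, x + EuclideanSpace.single 0 1, ?_, rfl⟩, left_mem_affineSpan_pair ℝ _ _⟩
    intro h
    have := congrArg (fun x : Plane => x 0) h
    simp at this
  choose f hf using h1
  refine ⟨_, S.image f, rfl, ?_, ?_⟩
  · intro l hl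
    obtain ⟨x, -, rfl⟩ := Finset.mem_image.mp hl
    exact (hf x).1
  · intro x hx
    exact ⟨f x, Finset.mem_image_of_mem f hx, (hf x).2⟩

theorem gp_nonempty (S : Finset Plane) : {n | ∃ c : Plane → ℕ, (∀ x ∈ S, c x < n) ∧
    ∀ j, GeneralPosition {x | x ∈ S ∧ c x = j}}.Nonempty := by
  obtain ⟨f, hf⟩ : ∃ f : Plane → ℕ, Set.InjOn f S :=
    Set.countable_iff_exists_injOn.mp (Finset.countable_toSet S)
  refine ⟨(S.sup f) + 1, f, ?_, ?_⟩
  · intro x hx
    exact Nat.lt_succ_of_le (Finset.le_sup hx)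
  · intro j a ha b hb c _ hab _ _ _
    exact hab (hf ha.1 hb.1 (ha.2.trans hb.2.symm))

theorem gp_le {S : Finset Plane} {n : ℕ} (h : Cov lns n S) : gp S ≤ n := by
  apply Nat.sInf_le
  obtain ⟨c, hc, hc'⟩ := h
  refine ⟨c, hc, fun j => ?_⟩
  have := (gpos_iff _).mp (hc' j)
  simpa only [Finset.mem_filter] using this

theorem cov_gp (S : Finset Plane) : Cov lns (gp S) S := by
  obtain ⟨c, hc, hc'⟩ := Nat.sInf_mem (gp_nonempty S)
  refine ⟨c, hc, fun j => ?_⟩
  rw [gpos_iff]
  simpa only [Finset.mem_filter] using hc' j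

/-- the trivial lower bound -/
theorem half_le_gp (S : Finset Plane) : (online S + 1) / 2 ≤ gp S := by
  obtain ⟨l, hl, he⟩ := online_attained S
  obtain ⟨c, hc, hc'⟩ := cov_gp S
  have h1 : on S l ⊆ (Finset.range (gp S)).biUnion
      (fun j => on (S.filter (fun x => c x = j)) l) := by
    intro x hx
    rw [mem_on] at hx
    rw [Finset.mem_biUnion]
    exact ⟨c x, Finset.mem_range.mpr (hc x hx.1),
      mem_on.mpr ⟨Finset.mem_filter.mpr ⟨hx.1, rfl⟩, hx.2⟩⟩
  have h2 : (on S l).card ≤ 2 * gp S := by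
    calc (on S l).card ≤ _ := Finset.card_le_card h1
      _ ≤ ∑ j ∈ Finset.range (gp S), (on (S.filter (fun x => c x = j)) l).card :=
        Finset.card_biUnion_le
      _ ≤ ∑ _j ∈ Finset.range (gp S), 2 := Finset.sum_le_sum (fun j _ => hc' j l hl)
      _ = 2 * gp S := by rw [Finset.sum_const, Finset.card_range, smul_eq_mul]; ring
  omega

/-- the upper bound -/
theorem gp_eq {k : ℕ} (hk : 1 ≤ k) (S : Finset Plane) (hLC : lineCover S ≤ k)
    (hS : 90 * k ^ 4 ≤ S.card) : gp S = (online S + 1) / 2 := by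
  obtain ⟨F, hF, hFl, hFc⟩ := Nat.sInf_mem (cover_nonempty S)
  have hFk : F.card ≤ k := by rw [hF]; exact hLC
  have hk4 : 1 ≤ k ^ 4 := Nat.one_le_pow _ _ hk
  have hF1 : 1 ≤ F.card := by
    by_contra hcon
    have : F = ∅ := Finset.card_eq_zero.mp (by omega)
    have hSne : S.Nonempty := Finset.card_pos.mp (by omega)
    obtain ⟨x, hx⟩ := hSne
    obtain ⟨l, hl, -⟩ := hFc x hx
    rw [this] at hl
    simp at hl
  let L : Fin F.card → Set Plane := fun i => (F.equivFin.symm i : Set Plane)
  have H : Setting lns L S := by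
    refine ⟨fun l hl l' hl' a b hab h1 h2 h3 h4 => line_uniq hl hl' hab h1 h2 h3 h4,
      fun i => hFl _ (F.equivFin.symm i).2, ?_, ?_⟩
    · intro i j hij
      exact F.equivFin.symm.injective (Subtype.ext hij)
    · intro x hx
      obtain ⟨l, hl, hxl⟩ := hFc x hx
      refine ⟨F.equivFin ⟨l, hl⟩, ?_⟩
      show x ∈ ((F.equivFin.symm (F.equivFin ⟨l, hl⟩) : F) : Set Plane)
      rw [Equiv.symm_apply_apply]
      exact hxl
  have h1 : S.card ≤ F.card * online S := by
    calc S.card ≤ ∑ i : Fin F.card, (on S (L i)).card := card_le_sum_on H (Finset.Subset.refl _)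
      _ ≤ ∑ _i : Fin F.card, online S := Finset.sum_le_sum (fun i _ => le_online S (H.mem i))
      _ = F.card * online S := by
        rw [Finset.sum_const, Finset.card_univ, Fintype.card_fin, smul_eq_mul]
  have h2 : 90 * k ^ 3 ≤ online S := by
    have h3 : S.card ≤ k * online S := h1.trans (Nat.mul_le_mul_right _ hFk)
    have h4 : k * (90 * k ^ 3) ≤ k * online S := by
      calc k * (90 * k ^ 3) = 90 * k ^ 4 := by ring
        _ ≤ _ := hS.trans h3
    exact Nat.le_of_mul_le_mul_left h4 hk
  have h3 : F.card ^ 3 ≤ k ^ 3 := Nat.pow_le_pow_left hFk 3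
  have hcov := cov_main H hF1 ((online S + 1) / 2) (by omega) (by
    intro i
    have := le_online S (H.mem i)
    omega)
  exact le_antisymm (gp_le hcov) (half_le_gp S)

/-! ### The example -/

/-- the point `(i, i j)` -/
noncomputable def P (i j : ℕ) : Plane := !₂[(i : ℝ), (i : ℝ) * (j : ℝ)]

theorem P_zero (i j : ℕ) : (P i j) 0 = (i : ℝ) := by simp [P]

theorem P_one (i j : ℕ) : (P i j) 1 = (i : ℝ) * (j : ℝ) := by simp [P]

theorem plane_ext {x y : Plane} (h0 : x 0 = y 0) (h1 : x 1 = y 1) : x = y := by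
  ext i
  fin_cases i
  · exact h0
  · exact h1

/-- the example: `a` lines with `b` points and one more point -/
noncomputable def ex (a b : ℕ) : Finset Plane :=
  insert 0 ((Finset.Icc 1 a ×ˢ Finset.Icc 1 b).image (fun ij => P ij.1 ij.2))

theorem P_inj {i j i' j' : ℕ} (hi : 1 ≤ i) (h : P i j = P i' j') : i = i' ∧ j = j' := by
  have h0 := congrArg (fun x : Plane => x 0) h
  have h1 := congrArg (fun x : Plane => x 1) h
  simp only [P_zero, P_one] at h0 h1
  have hi' : i = i' := by exact_mod_cast h0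
  subst hi'
  refine ⟨rfl, ?_⟩
  have hpos : (0 : ℝ) < i := by exact_mod_cast hi
  have := mul_left_cancel₀ hpos.ne' h1
  exact_mod_cast this

theorem zero_notMem (a b : ℕ) :
    (0 : Plane) ∉ (Finset.Icc 1 a ×ˢ Finset.Icc 1 b).image (fun ij => P ij.1 ij.2) := by
  intro h
  obtain ⟨⟨i, j⟩, hij, he⟩ := Finset.mem_image.mp h
  have h0 := congrArg (fun x : Plane => x 0) he
  simp only [P_zero] at h0
  have : (i : ℝ) = 0 := h0
  rw [Finset.mem_product, Finset.mem_Icc] at hij
  have : i = 0 := by exact_mod_cast this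
  omega

theorem card_ex (a b : ℕ) : (ex a b).card = a * b + 1 := by
  unfold ex
  rw [Finset.card_insert_of_notMem (zero_notMem a b), Finset.card_image_of_injOn,
    Finset.card_product, Nat.card_Icc, Nat.card_Icc]
  · simp
  · rintro ⟨i, j⟩ hij ⟨i', j'⟩ _ he
    have hij' := Finset.mem_product.mp hij
    rw [Finset.mem_Icc] at hij'
    obtain ⟨h1, h2⟩ := P_inj hij'.1.1 he
    exact Prod.ext h1 h2

theorem mem_ex {a b : ℕ} {x : Plane} : x ∈ ex a b ↔
    x = 0 ∨ ∃ i j, 1 ≤ i ∧ i ≤ a ∧ 1 ≤ j ∧ j ≤ b ∧ x = P i j := by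
  unfold ex
  rw [Finset.mem_insert, Finset.mem_image]
  constructor
  · rintro (h | ⟨⟨i, j⟩, hij, he⟩)
    · exact Or.inl h
    · rw [Finset.mem_product, Finset.mem_Icc, Finset.mem_Icc] at hij
      exact Or.inr ⟨i, j, hij.1.1, hij.1.2, hij.2.1, hij.2.2, he.symm⟩
  · rintro (h | ⟨i, j, h1, h2, h3, h4, h5⟩)
    · exact Or.inl h
    · refine Or.inr ⟨(i, j), ?_, h5.symm⟩
      rw [Finset.mem_product, Finset.mem_Icc, Finset.mem_Icc]
      exact ⟨⟨h1, h2⟩, h3, h4⟩

/-- the vertical line with first coordinate `i` -/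
theorem isLine_vert (i : ℝ) : IsLine {x : Plane | x 0 = i} := by
  refine ⟨!₂[i, 0], !₂[i, 1], ?_, ?_⟩
  · intro h
    have := congrArg (fun x : Plane => x 1) h
    simp at this
  · ext x
    rw [Set.mem_ofPred_eq, Set.mem_ofPred_eq]
    constructor
    · intro hx
      have : x = AffineMap.lineMap (!₂[i, 0] : Plane) (!₂[i, 1] : Plane) (x 1) := by
        apply plane_ext
        · simp [AffineMap.lineMap_apply, hx]
        · simp [AffineMap.lineMap_apply]
      rw [this]
      exact AffineMap.lineMap_mem_affineSpan_pair _ _ _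
    · intro hx
      rw [← vsub_vadd x (!₂[i, 0] : Plane), vadd_left_mem_affineSpan_pair] at hx
      obtain ⟨r, hr⟩ := hx
      have h0 := congrArg (fun x : Plane => x 0) hr
      simp at h0
      linarith

theorem lineCover_ex (a b : ℕ) : lineCover (ex a b) ≤ a + 1 := by
  have h : lineCover (ex a b) ≤
      ((Finset.range (a + 1)).image (fun i : ℕ => {x : Plane | x 0 = (i : ℝ)})).card := by
    apply Nat.sInf_le
    refine ⟨_, rfl, ?_, ?_⟩
    · intro l hl
      obtain ⟨i, -, rfl⟩ := Finset.mem_image.mp hl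
      exact isLine_vert _
    · intro x hx
      rcases mem_ex.mp hx with rfl | ⟨i, j, h1, h2, h3, h4, rfl⟩
      · refine ⟨_, Finset.mem_image_of_mem _ (Finset.mem_range.mpr (Nat.succ_pos a)), ?_⟩
        simp
      · refine ⟨_, Finset.mem_image_of_mem _ (Finset.mem_range.mpr (by omega : i < a + 1)), ?_⟩
        rw [Set.mem_ofPred_eq]
        exact P_zero i j
  exact h.trans (Finset.card_image_le.trans (by rw [Finset.card_range]))

theorem online_ex {a b : ℕ} (h : a + 1 ≤ b) : online (ex a b) ≤ b := by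
  obtain ⟨l, hl, he⟩ := online_attained (ex a b)
  rw [he]
  by_cases hv : ∃ p ∈ on (ex a b) l, ∃ q ∈ on (ex a b) l, p ≠ q ∧ p 0 = q 0
  · obtain ⟨p, hp, q, hq, hpq, h0⟩ := hv
    rw [mem_on] at hp hq
    have hle : l = {x : Plane | x 0 = p 0} :=
      line_uniq hl (isLine_vert _) hpq hp.2 hq.2 rfl h0.symm
    -- the common first coordinate
    obtain ⟨i, hi1, hi⟩ : ∃ i : ℕ, 1 ≤ i ∧ p 0 = i := by
      rcases mem_ex.mp hp.1 with rfl | ⟨i, j, h1, h2, h3, h4, rfl⟩
      · rcases mem_ex.mp hq.1 with rfl | ⟨i, j, h1, h2, h3, h4, rfl⟩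
        · exact absurd rfl hpq
        · exact ⟨i, h1, by rw [h0, P_zero]⟩
      · exact ⟨i, h1, P_zero i j⟩
    have hsub : on (ex a b) l ⊆ (Finset.Icc 1 b).image (fun j => P i j) := by
      intro x hx
      rw [mem_on, hle, Set.mem_ofPred_eq, hi] at hx
      rcases mem_ex.mp hx.1 with rfl | ⟨i', j, h1, h2, h3, h4, rfl⟩
      · exfalso
        have h5 : (0 : ℝ) = i := hx.2
        have h6 : (i : ℝ) ≠ 0 := by exact_mod_cast (by omega : i ≠ 0)
        exact h6 h5.symm
      · have h5 : (i' : ℝ) = i := by rw [← P_zero i' j]; exact hx.2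
        have h6 : i' = i := by exact_mod_cast h5
        subst h6
        exact Finset.mem_image_of_mem _ (Finset.mem_Icc.mpr ⟨h3, h4⟩)
    exact (Finset.card_le_card hsub).trans (Finset.card_image_le.trans (by rw [Nat.card_Icc]; omega))
  · push Not at hv
    have hinj : Set.InjOn (fun x : Plane => x 0) (on (ex a b) l : Set Plane) := by
      intro p hp q hq h0
      by_contra hne
      exact hv p hp q hq hne h0
    have hsub : (on (ex a b) l).image (fun x : Plane => x 0) ⊆
        (Finset.range (a + 1)).image (fun i : ℕ => (i : ℝ)) := by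
      intro y hy
      obtain ⟨x, hx, rfl⟩ := Finset.mem_image.mp hy
      rw [mem_on] at hx
      rcases mem_ex.mp hx.1 with rfl | ⟨i, j, h1, h2, h3, h4, rfl⟩
      · exact Finset.mem_image.mpr ⟨0, Finset.mem_range.mpr (by omega), by simp⟩
      · exact Finset.mem_image.mpr ⟨i, Finset.mem_range.mpr (by omega), (P_zero i j).symm⟩
    have h1 := Finset.card_le_card hsub
    rw [Finset.card_image_of_injOn hinj] at h1
    have h2 := Finset.card_image_le (s := Finset.range (a + 1)) (f := fun i : ℕ => (i : ℝ))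
    rw [Finset.card_range] at h2
    omega

theorem gp_ex {a g : ℕ} (h : g < a) : g < gp (ex a (2 * g)) := by
  by_contra hcon
  push Not at hcon
  obtain ⟨c, hc, hc'⟩ := Nat.sInf_mem (gp_nonempty (ex a (2 * g)))
  have hcg : ∀ x ∈ ex a (2 * g), c x < g := fun x hx => lt_of_lt_of_le (hc x hx) hcon
  have hmem0 : (0 : Plane) ∈ ex a (2 * g) := mem_ex.mpr (Or.inl rfl)
  have hmem : ∀ i ∈ Finset.Icc 1 a, ∀ j ∈ Finset.Icc 1 (2 * g), P i j ∈ ex a (2 * g) := by
    intro i hi j hj
    rw [Finset.mem_Icc] at hi hj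
    exact mem_ex.mpr (Or.inr ⟨i, j, hi.1, hi.2, hj.1, hj.2, rfl⟩)
  set c0 := c 0 with hc0
  have hc0g : c0 < g := hcg 0 hmem0
  -- every colour occurs at most twice in a column
  have hcol : ∀ i ∈ Finset.Icc 1 a, ∀ d : ℕ,
      ((Finset.Icc 1 (2 * g)).filter (fun j => c (P i j) = d)).card ≤ 2 := by
    intro i hi d
    by_contra hlt
    push Not at hlt
    obtain ⟨u, hu, v, hv, w, hw, huv, huw, hvw⟩ := Finset.two_lt_card.mp hlt
    rw [Finset.mem_filter] at hu hv hw
    have hi1 := (Finset.mem_Icc.mp hi).1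
    apply hc' d (P i u) ⟨hmem i hi u hu.1, hu.2⟩ (P i v) ⟨hmem i hi v hv.1, hv.2⟩
      (P i w) ⟨hmem i hi w hw.1, hw.2⟩ (fun h => huv (P_inj hi1 h).2) (fun h => huw (P_inj hi1 h).2)
      (fun h => hvw (P_inj hi1 h).2)
    rw [collinear_iff_of_mem (p₀ := P i u) (by simp)]
    refine ⟨!₂[0, 1], ?_⟩
    intro p hp
    simp only [Set.mem_insert_iff, Set.mem_singleton_iff] at hp
    refine ⟨p 1 - (P i u) 1, ?_⟩
    apply plane_ext
    · rcases hp with rfl | rfl | rfl <;> simp [P_zero]
    · simp
  -- hence every colour occurs exactly twice in every column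
  have hrow : ∀ i ∈ Finset.Icc 1 a,
      2 ≤ ((Finset.Icc 1 (2 * g)).filter (fun j => c (P i j) = c0)).card := by
    intro i hi
    have h1 : Finset.Icc 1 (2 * g) ⊆ (Finset.range g).biUnion
        (fun d => (Finset.Icc 1 (2 * g)).filter (fun j => c (P i j) = d)) := by
      intro j hj
      rw [Finset.mem_biUnion]
      exact ⟨c (P i j), Finset.mem_range.mpr (hcg _ (hmem i hi j hj)),
        Finset.mem_filter.mpr ⟨hj, rfl⟩⟩
    have h2 := (Finset.card_le_card h1).trans Finset.card_biUnion_le
    rw [Nat.card_Icc, ← Finset.add_sum_erase _ _ (Finset.mem_range.mpr hc0g)] at h2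
    have h3 : ∑ d ∈ (Finset.range g).erase c0,
        ((Finset.Icc 1 (2 * g)).filter (fun j => c (P i j) = d)).card ≤
        ∑ _d ∈ (Finset.range g).erase c0, 2 := Finset.sum_le_sum (fun d _ => hcol i hi d)
    rw [Finset.sum_const, Finset.card_erase_of_mem (Finset.mem_range.mpr hc0g), Finset.card_range,
      smul_eq_mul] at h3
    omega
  -- but every line through the origin contains at most one point with the colour of the origin
  have hpen : ∀ j ∈ Finset.Icc 1 (2 * g),
      ((Finset.Icc 1 a).filter (fun i => c (P i j) = c0)).card ≤ 1 := by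
    intro j hj
    by_contra hlt
    push Not at hlt
    obtain ⟨u, hu, v, hv, huv⟩ := Finset.one_lt_card.mp hlt
    rw [Finset.mem_filter] at hu hv
    have hu1 := (Finset.mem_Icc.mp hu.1).1
    have hv1 := (Finset.mem_Icc.mp hv.1).1
    have hne : ∀ i, 1 ≤ i → (0 : Plane) ≠ P i j := by
      intro i hi he
      have h0 := congrArg (fun x : Plane => x 0) he
      simp only [P_zero] at h0
      have h5 : (0 : ℝ) = i := h0
      have h6 : (i : ℝ) ≠ 0 := by exact_mod_cast (by omega : i ≠ 0)
      exact h6 h5.symm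
    apply hc' c0 0 ⟨hmem0, rfl⟩ (P u j) ⟨hmem u hu.1 j hj, hu.2⟩ (P v j) ⟨hmem v hv.1 j hj, hv.2⟩
      (hne u hu1) (hne v hv1) (fun h => huv (P_inj hu1 h).1)
    rw [collinear_iff_of_mem (p₀ := (0 : Plane)) (by simp)]
    refine ⟨!₂[1, (j : ℝ)], ?_⟩
    intro p hp
    simp only [Set.mem_insert_iff, Set.mem_singleton_iff] at hp
    refine ⟨p 0, ?_⟩
    apply plane_ext
    · simp
    · rcases hp with rfl | rfl | rfl
      · simp
      · simp [P_zero, P_one]
      · simp [P_zero, P_one]
  have hsum : ∑ i ∈ Finset.Icc 1 a, ((Finset.Icc 1 (2 * g)).filter (fun j => c (P i j) = c0)).card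
      = ∑ j ∈ Finset.Icc 1 (2 * g), ((Finset.Icc 1 a).filter (fun i => c (P i j) = c0)).card := by
    simp only [Finset.card_filter]
    rw [Finset.sum_comm]
  have h1 : ∑ _i ∈ Finset.Icc 1 a, 2 ≤
      ∑ i ∈ Finset.Icc 1 a, ((Finset.Icc 1 (2 * g)).filter (fun j => c (P i j) = c0)).card :=
    Finset.sum_le_sum hrow
  have h2 : ∑ j ∈ Finset.Icc 1 (2 * g), ((Finset.Icc 1 a).filter (fun i => c (P i j) = c0)).card ≤
      ∑ _j ∈ Finset.Icc 1 (2 * g), 1 := Finset.sum_le_sum hpen
  rw [Finset.sum_const, Nat.card_Icc, smul_eq_mul] at h1 h2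
  omega

end plane

/-- `N(k)` is at most `90 k ^ 4` and (for `k ≥ 4`) larger than `2 (k - 1) (k - 2) + 1`. -/
theorem result (k : ℕ) (hk : 1 ≤ k) :
    (∀ S : Finset Plane, lineCover S ≤ k → 90 * k ^ 4 ≤ S.card → gp S = (online S + 1) / 2) ∧
      N k ≤ 90 * k ^ 4 ∧ (4 ≤ k → 2 * (k - 1) * (k - 2) + 1 < N k) := by
  have h1 : ∀ S : Finset Plane, lineCover S ≤ k → 90 * k ^ 4 ≤ S.card →
      gp S = (online S + 1) / 2 := fun S hS hc => gp_eq hk S hS hc
  refine ⟨h1, Nat.sInf_le h1, ?_⟩
  intro hk4
  have h2 : ∀ S : Finset Plane, lineCover S ≤ k → N k ≤ S.card → gp S = (online S + 1) / 2 :=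
    Nat.sInf_mem (s := {n | ∀ S : Finset Plane, lineCover S ≤ k → n ≤ S.card →
      gp S = (online S + 1) / 2}) ⟨90 * k ^ 4, h1⟩
  by_contra hcon
  push Not at hcon
  have h3 := card_ex (k - 1) (2 * (k - 2))
  have h4 : (k - 1) * (2 * (k - 2)) = 2 * (k - 1) * (k - 2) := by ring
  have h5 := lineCover_ex (k - 1) (2 * (k - 2))
  have h6 := h2 (ex (k - 1) (2 * (k - 2))) (by omega) (by rw [h3, h4]; exact hcon)
  have h7 := online_ex (a := k - 1) (b := 2 * (k - 2)) (by omega)
  have h8 := gp_ex (a := k - 1) (g := k - 2) (by omega)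
  omega

end Pool.Agent.Results.MP_4c1c99_co.PolynomialBound
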